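import Mathlib
import Pool.Agent.V11155.Subtraction

/-!
# An ultimately bipartite subtraction game which is expandable

For `S = {3, 11, 15}` the nim-sequence alternates `0, 1, 0, 1, ...` from `n = 26` on, and the set
`S^ex` is `{3, 9, 11, 15}`.
-/

set_option autoImplicit false

namespace Pool.Agent.Results.MP_bd62ae_co.Expandable

open Pool.Agent.V11155.Subtraction

/-- The subtraction game on `S` is ultimately bipartite: its nim-sequence has period `2` and from some
point on its values alternate between `0` and `1`. -/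
def UltimatelyBipartite (S : Finset ℕ) : Prop :=
  IsLeast {p | UltPer (nim S) p} 2 ∧
  ∃ n₀, ∀ n, n₀ ≤ n →
    (nim S n = 0 ∧ nim S (n + 1) = 1) ∨ (nim S n = 1 ∧ nim S (n + 1) = 0)

/-- The expansion `S^ex`: all positive integers `s` such that the nim-values of `n + s` and of `n`
differ for every `n`. -/
def expansion (S : Finset ℕ) : Set ℕ := {s | 0 < s ∧ ∀ n, nim S (n + s) ≠ nim S n}

/-- The set `S^{*p}` of all `s + m p` with `s ∈ S` and `m ≥ 0`. -/
def starSet (S : Finset ℕ) (p : ℕ) : Set ℕ := {x | ∃ s ∈ S, ∃ m : ℕ, x = s + m * p}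

/-- The first `26` nim-values for `S = {3, 11, 15}`. -/
def tab : List ℕ := [0, 0, 0, 1, 1, 1, 0, 0, 0, 1, 1, 1, 2, 2, 0, 3, 3, 1, 2, 2, 0, 3, 3, 1, 0, 2]

/-- The candidate for the nim-sequence. -/
def g (n : ℕ) : ℕ := if n < 26 then tab.getD n 0 else n % 2

theorem g_per (n : ℕ) (hn : 26 ≤ n) : g (n + 2) = g n := by
  unfold g
  rw [if_neg (by omega), if_neg (by omega), Nat.add_mod_right]

theorem nim_eq (n : ℕ) : nim {3, 11, 15} n = g n := by
  have h := nim_eq_of_test [3, 11, 15] g 26 2 15 43 (by norm_num) (by decide)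
    (by norm_num) g_per (by decide +kernel) n
  have e : ([3, 11, 15] : List ℕ).toFinset = {3, 11, 15} := by decide
  rwa [e] at h

theorem g_large (n : ℕ) (hn : 26 ≤ n) : g n = n % 2 := by
  unfold g; rw [if_neg (by omega)]

/-- There is a finite nonempty set `S` of positive integers whose subtraction game is ultimately
bipartite and whose expansion `S^ex` is neither `S` nor `S^{*2}` (the proof takes `S = {3, 11, 15}`,
for which `9` belongs to `S^ex` and `5` does not). -/
theorem result : ∃ S : Finset ℕ, S.Nonempty ∧ (∀ s ∈ S, 0 < s) ∧ UltimatelyBipartite S ∧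
    expansion S ≠ (S : Set ℕ) ∧ expansion S ≠ starSet S 2 := by
  have hfun : nim {3, 11, 15} = g := funext nim_eq
  have h9 : (9 : ℕ) ∈ expansion {3, 11, 15} := by
    refine ⟨by norm_num, ?_⟩
    intro n
    rw [hfun]
    by_cases hn : n < 26
    · have key : ∀ n < 26, g (n + 9) ≠ g n := by decide +kernel
      exact key n hn
    · rw [g_large n (by omega), g_large (n + 9) (by omega)]
      omega
  refine ⟨{3, 11, 15}, by decide, by decide, ⟨?_, 26, ?_⟩, ?_, ?_⟩
  · rw [hfun]
    refine ⟨⟨by norm_num, 26, g_per⟩, ?_⟩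
    intro p hp
    by_contra hlt
    push Not at hlt
    have h := UltPer.from_start (by norm_num : 0 < 2) (n₀ := 26) g_per hp
    have hpos := hp.1
    have hp1 : p = 1 := by omega
    subst hp1
    have := h 26 le_rfl
    revert this
    decide +kernel
  · intro n hn
    rw [hfun, g_large n hn, g_large (n + 1) (by omega)]
    omega
  · intro h
    rw [h] at h9
    simp at h9
  · intro h
    have h5 : (5 : ℕ) ∈ starSet {3, 11, 15} 2 := ⟨3, by decide, 1, by norm_num⟩
    rw [← h] at h5
    have := h5.2 4
    rw [hfun] at this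
    revert this
    decide +kernel

end Pool.Agent.Results.MP_bd62ae_co.Expandable
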